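import Pool.Agent.Helper82.R1A.R1
import Pool.Agent.Helper60.CA.Cod

/-! FIELD r1 OF CASE A in the form of the assembly of the corner. -/

set_option autoImplicit false

namespace Pool.Agent.Helper82.R1A

open Finset Filter Topology MeasureTheory Pool.Agent.Helper69.RK Pool.Agent.Helper31.EC Pool.Agent.Helper60.CS
open Pool.Agent.Helper82.TP Pool.Agent.Helper40.EL Pool.Agent.Helper98.FR Pool.Agent.Helper80.HCI
open Pool.Agent.Helper42.NS Pool.Agent.Helper91.GR Pool.Agent.Helper52.KP Pool.Agent.Helper97.T1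
open Pool.Agent.Helper47.CA Pool.Agent.Helper60.CA

noncomputable section

open Sp QS Pool.Agent.Helper80.MX

variable {S : Sp} {s : Sys S 3}

/-- ROW A_R1: every summable sequence of scales works, for almost every window, for all slopes `w ≥ 0` -/
theorem fr1 {σ u v : ℝ} (hu : 0 ≤ u)
    (hA : ∀ a b, u < a → a ≤ b → b < v → Adm s (fun c => c + σ) (fun c => c) a b) {E : ℕ → ℝ} (hE : ∀ n, 0 < E n)
    (hs : Summable E) : ∀ᵐ c : ℝ, c ∈ Set.Ioo u v → ∀ (D : ℕ) (w ε : ℝ), 0 < ε →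
      ∀ᶠ n in atTop, 0 ≤ w → FR1 s D σ c (E n) w ε := by
  filter_upwards [r1_nd hu hA hE hs] with c hc hcu D w ε hε
  filter_upwards [hc hcu ε hε] with n hn hw q B i0 i1 i2 i3 hq hd N hN
  exact hn q q B.L B.b i0 i2 i3 D w hw hq.h0 hq.h2 (by rw [hq.h3, hq.h2]) hd N hN

/-- the uniform form: one threshold for all slopes and all degrees -/
theorem fr1_unif {σ u v : ℝ} (hu : 0 ≤ u)
    (hA : ∀ a b, u < a → a ≤ b → b < v → Adm s (fun c => c + σ) (fun c => c) a b) {E : ℕ → ℝ} (hE : ∀ n, 0 < E n)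
    (hs : Summable E) : ∀ᵐ c : ℝ, c ∈ Set.Ioo u v → ∀ ε : ℝ, 0 < ε →
      ∀ᶠ n in atTop, ∀ (D : ℕ) (w : ℝ), 0 ≤ w → FR1 s D σ c (E n) w ε := by
  filter_upwards [r1_nd hu hA hE hs] with c hc hcu ε hε
  filter_upwards [hc hcu ε hε] with n hn D w hw q B i0 i1 i2 i3 hq hd N hN
  exact hn q q B.L B.b i0 i2 i3 D w hw hq.h0 hq.h2 (by rw [hq.h3, hq.h2]) hd N hN

end

end Pool.Agent.Helper82.R1A
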