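import Pool.Agent.Helper97.T1.Ra

/-! Monotone functions close to a constant: the increments at the scale of a summable error are negligible almost
everywhere. -/

set_option autoImplicit false

namespace Pool.Agent.Helper82.R1A

open MeasureTheory Set Filter Topology
open scoped ENNReal NNReal
open Pool.Agent.Helper97.T1

/-- fixed interval, fixed threshold -/
theorem bc_eps {g : ℕ → ℝ → ℝ} {E : ℕ → ℝ} {K C a b ε : ℝ} (hab : a ≤ b) (hC : 0 ≤ C) (hE : ∀ n, 0 < E n)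
    (hs : Summable E) (hε : 0 < ε) (hg : ∀ᶠ n in atTop, MonotoneOn (g n) (Icc a b))
    (hK : ∀ᶠ n in atTop, ∀ c ∈ Icc a b, |g n c - K| ≤ C * E n) :
    ∀ᵐ c : ℝ, c ∈ Ioo a b → ∀ᶠ n in atTop, g n (c + 2 * E n) - g n (c - 2 * E n) < ε * E n := by
  classical
  set G : ℕ → ℝ → ℝ := fun n r => g n (cl a b r) with hG
  set P : ℕ → Prop := fun n => MonotoneOn (g n) (Icc a b) ∧ ∀ c ∈ Icc a b, |g n c - K| ≤ C * E n with hP
  set Bs : ℕ → Set ℝ := fun n => {c | P n ∧ c ∈ Icc a (a + (b - a)) ∧ ε * E n ≤ G n (c + 2 * E n) - G n (c - 2 * E n)} with hBs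
  have hvol : ∀ n, volume (Bs n) ≤ ENNReal.ofReal (8 * C / ε * E n) := by
    intro n
    by_cases hp : P n
    · have hm : Monotone (G n) := fun r r' h => hp.1 (cl_mem hab r) (cl_mem hab r') (cl_mono h)
      have hr : G n (a + (b - a) + 2 * E n) - G n (a - 2 * E n) ≤ 2 * C * E n := by
        have h1 := abs_le.mp (hp.2 _ (cl_mem hab (a + (b - a) + 2 * E n)))
        have h2 := abs_le.mp (hp.2 _ (cl_mem hab (a - 2 * E n)))
        show g n (cl a b (a + (b - a) + 2 * E n)) - g n (cl a b (a - 2 * E n)) ≤ 2 * C * E n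
        linarith [h1.2, h2.1]
      have h1 := block hm (p := a) (L := b - a) (ω := 2 * E n) (τ := ε * E n) (by linarith) (by linarith [hE n])
        (mul_pos hε (hE n))
      refine (measure_mono ?_).trans (h1.trans (ENNReal.ofReal_le_ofReal ?_))
      · rintro c ⟨-, h2, h3⟩
        exact ⟨h2, h3⟩
      · rw [div_le_iff₀ (mul_pos hε (hE n))]
        have h2 : 8 * C / ε * E n * (ε * E n) = 2 * (2 * E n) * (2 * C * E n) := by
          field_simp
          ring
        rw [h2]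
        exact mul_le_mul_of_nonneg_left hr (by linarith [hE n])
    · have : Bs n = ∅ := by
        ext c
        simp only [hBs, mem_ofPred_eq, mem_empty_iff_false, iff_false]
        rintro ⟨h1, -⟩
        exact hp h1
      rw [this, measure_empty]
      exact zero_le
  have hsum : (∑' n, volume (Bs n)) ≠ ∞ := by
    have h1 : Summable fun n => 8 * C / ε * E n := hs.mul_left _
    have h2 := h1.tsum_ofReal_ne_top
    exact ne_top_of_le_ne_top h2 (ENNReal.tsum_le_tsum hvol)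
  have hmain := ae_eventually_notMem hsum
  filter_upwards [hmain] with c hc hcab
  have hE0 : Tendsto E atTop (𝓝 0) := hs.tendsto_atTop_zero
  have h1 : ∀ᶠ n in atTop, 2 * E n < min (c - a) (b - c) := by
    have : Tendsto (fun n => 2 * E n) atTop (𝓝 (2 * 0)) := hE0.const_mul 2
    rw [mul_zero] at this
    exact this.eventually (gt_mem_nhds (lt_min (by linarith [hcab.1]) (by linarith [hcab.2])))
  filter_upwards [hc, h1, hg, hK] with n h2 h3 h4 h5
  by_contra h6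
  push Not at h6
  apply h2
  have h3a := h3.trans_le (min_le_left _ _)
  have h3b := h3.trans_le (min_le_right _ _)
  have hn := hE n
  refine ⟨⟨h4, h5⟩, ⟨hcab.1.le, by linarith [hcab.2]⟩, ?_⟩
  show ε * E n ≤ g n (cl a b (c + 2 * E n)) - g n (cl a b (c - 2 * E n))
  rw [cl_eq ⟨by linarith [hcab.1], by linarith⟩, cl_eq ⟨by linarith, by linarith [hcab.2]⟩]
  exact h6

/-- on an open interval, all thresholds -/
theorem bc {g : ℕ → ℝ → ℝ} {E : ℕ → ℝ} {K C u v : ℝ} (hC : 0 ≤ C) (hE : ∀ n, 0 < E n)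
    (hs : Summable E) (hg : ∀ a b, u < a → a ≤ b → b < v → ∀ᶠ n in atTop, MonotoneOn (g n) (Icc a b))
    (hK : ∀ a b, u < a → a ≤ b → b < v → ∀ᶠ n in atTop, ∀ c ∈ Icc a b, |g n c - K| ≤ C * E n) :
    ∀ᵐ c : ℝ, c ∈ Ioo u v → ∀ ε : ℝ, 0 < ε → ∀ᶠ n in atTop, g n (c + 2 * E n) - g n (c - 2 * E n) < ε * E n := by
  have h1 : ∀ x : ℚ × ℚ × ℕ, ∀ᵐ c : ℝ, u < x.1 → (x.1 : ℝ) ≤ x.2.1 → (x.2.1 : ℝ) < v → c ∈ Ioo (x.1 : ℝ) x.2.1 →
      ∀ᶠ n in atTop, g n (c + 2 * E n) - g n (c - 2 * E n) < (1 / ((x.2.2 : ℝ) + 1)) * E n := by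
    intro x
    by_cases hx : u < x.1 ∧ (x.1 : ℝ) ≤ x.2.1 ∧ (x.2.1 : ℝ) < v
    · obtain ⟨a1, a2, a3⟩ := hx
      have h2 := bc_eps (ε := 1 / ((x.2.2 : ℝ) + 1)) a2 hC hE hs (by positivity) (hg _ _ a1 a2 a3) (hK _ _ a1 a2 a3)
      filter_upwards [h2] with c hc _ _ _ hcm
      exact hc hcm
    · refine Eventually.of_forall fun c b1 b2 b3 => absurd ⟨b1, b2, b3⟩ hx
  have h2 := ae_all_iff.mpr h1
  filter_upwards [h2] with c hc hcm ε hε
  obtain ⟨x, hx1, hx2⟩ := exists_rat_btwn hcm.1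
  obtain ⟨y, hy1, hy2⟩ := exists_rat_btwn hcm.2
  obtain ⟨m, hm⟩ := exists_nat_one_div_lt hε
  have h3 := hc (x, y, m) hx1 (hx2.le.trans hy1.le) hy2 ⟨hx2, hy1⟩
  filter_upwards [h3] with n hn
  refine hn.trans_le ?_
  exact mul_le_mul_of_nonneg_right hm.le (hE n).le

end Pool.Agent.Helper82.R1A
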