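import Pool.Agent.Helper82.R1A.Val
import Pool.Agent.Helper82.R1A.Bc
import Pool.Agent.Helper47.CA.Bx
import Pool.Agent.Helper51.LP.FlV

/-! FIELD r1 OF CASE A (flat base): for almost every window the direction and the velocity of the slab lose nothing
between the nested labels at the scale of the corner. -/

set_option autoImplicit false

namespace Pool.Agent.Helper82.R1A

open Finset Filter Topology MeasureTheory Pool.Agent.Helper69.RK Pool.Agent.Helper31.EC Pool.Agent.Helper60.CS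
open Pool.Agent.Helper82.TP Pool.Agent.Helper40.EL Pool.Agent.Helper98.FR Pool.Agent.Helper80.HCI
open Pool.Agent.Helper42.NS Pool.Agent.Helper91.GR Pool.Agent.Helper52.KP Pool.Agent.Helper97.T1
open Pool.Agent.Helper47.CA

noncomputable section

open Sp QS Pool.Agent.Helper80.MX

variable {S : Sp} {s : Sys S 3}

/-- admissible windows with a flat base and a trivial sheet -/
theorem adm_flat {σ a b : ℝ} (a0 : 0 ≤ a) (h0 : 0 ≤ σ) (h1 : ∀ c ∈ Set.Icc a b, c + σ ≤ 1) (hb1 : b ≤ 1)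
    (hR : ∀ c ∈ Set.Icc a b, HH (SJ 1 {0, 1}) s c (c + σ))
    (full : ∀ c ∈ Set.Icc a b, ∀ l : Lab S, IsKap s c l → (1 - c) + (1 - (c + σ)) ≤
      h (up1 l (TR.dg (TR.cor s.P 0) 1 ⊔ TR.dg (TR.cor s.P 1) 1)) (up1 l s.T)) :
    Adm s (fun c => c + σ) (fun c => c) a b where
  a0 := a0
  b1 := hb1
  lam1 := h1
  eta0 := fun c hc => a0.trans hc.1
  eta1 := fun c hc => hc.2.trans hb1
  clam := fun c _ => by
    show c ≤ c + σ
    linarith
  slam := fun c _ c' _ _ => by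
    show c + σ - c ≤ c' + σ - c'
    linarith
  seta := fun c _ c' _ _ => by
    show c - c ≤ c' - c'
    linarith
  hR := hR
  hz := fun c hc => Pool.Agent.Helper51.LP.HH_triv s 2 {0, 1, 2} (a0.trans hc.1) (hc.2.trans hb1)
  full := full

/-- windows of a box: the loss is the increment of the potential -/
theorem loss_eq {σ a a' : ℝ} (A : Adm s (fun c => c + σ) (fun c => c) a a') {q etav : ℕ → ℝ} {L : ℕ → Lab S}
    (b : Bx s q (fun i => q i + σ) etav L) {i2 i3 : ℕ} {e : ℝ} (he0 : 0 ≤ e) (hea : e ≤ a) (hσ : σ + e ≤ 1)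
    (h2 : q i2 ∈ Set.Icc a a') (h3 : q i3 ∈ Set.Icc a a') (h23 : q i2 ≤ q i3) (hd : b.bd.Dn i2 (q i3)) :
    H (chgL (b.bd.V i2) 1 one_pos (TR.dg (b.ld.x 0) e ⊔ TR.dg (b.ld.vr i2) (b.bd.lam i2 - b.bd.q i2 + e))) -
      H (chgL (b.bd.V i3) 1 one_pos (TR.dg (b.ld.x 0) e ⊔ TR.dg (b.ld.vr i2) (b.bd.lam i2 - b.bd.q i2 + e))) =
    Mf s (dep (fun c => c + σ) (fun c => c) 1) 1 1 e (q i3) - Mf s (dep (fun c => c + σ) (fun c => c) 1) 1 1 e (q i2) := by
  have he1 : e ≤ 1 := hea.trans ((h2.1.trans h2.2).trans A.b1)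
  have e2 : b.bd.lam i2 - b.bd.q i2 = σ := by
    show q i2 + σ - q i2 = σ
    ring
  have m2 := Mf_eq b A (i := i2) h2 rfl he0 hea (by
    show q i2 + σ - q i2 + e ≤ 1
    linarith)
  have m3 := Mf_eq b A (i := i3) h3 rfl he0 hea (by
    show q i3 + σ - q i3 + e ≤ 1
    linarith)
  have f2 : q i2 + σ - q i2 = σ := by ring
  have f3 : q i3 + σ - q i3 = σ := by ring
  simp only [f2] at m2
  simp only [f3] at m3
  have v := vr_le b.bd b.ld (i0 := i2) (i := i3) (e := e) hd h23 le_rfl he1 (by rw [e2]; exact hσ)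
  rw [e2] at v ⊢
  rw [chgL_sup, chgL_sup]
  have v' : H (chgL (b.bd.V i3) 1 one_pos (TR.dg (b.ld.x 0) e) ⊔ chgL (b.bd.V i3) 1 one_pos (TR.dg (b.ld.vr i2) (σ + e))) =
      H (chgL (b.bd.V i3) 1 one_pos (TR.dg (b.ld.x 0) e) ⊔ chgL (b.bd.V i3) 1 one_pos (TR.dg (b.ld.vr i3) (σ + e))) := by
    rw [← v]
  rw [v']
  linarith

/-- FIELD r1 OF CASE A -/
theorem r1 {σ u v : ℝ} (hu : 0 ≤ u)
    (hA : ∀ a b, u < a → a ≤ b → b < v → Adm s (fun c => c + σ) (fun c => c) a b) {E : ℕ → ℝ} (hE : ∀ n, 0 < E n)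
    (hs : Summable E) : ∀ᵐ c : ℝ, c ∈ Set.Ioo u v → ∀ ε : ℝ, 0 < ε → ∀ᶠ n in atTop,
      ∀ (q etav : ℕ → ℝ) (L : ℕ → Lab S) (b : Bx s q (fun i => q i + σ) etav L) (i2 i3 : ℕ), c - 2 * E n ≤ q i2 →
        q i2 ≤ q i3 → q i3 ≤ c + 2 * E n → b.bd.Dn i2 (q i3) →
        H (chgL (b.bd.V i2) 1 one_pos (TR.dg (b.ld.x 0) (E n) ⊔ TR.dg (b.ld.vr i2) (b.bd.lam i2 - b.bd.q i2 + E n))) -
        H (chgL (b.bd.V i3) 1 one_pos (TR.dg (b.ld.x 0) (E n) ⊔ TR.dg (b.ld.vr i2) (b.bd.lam i2 - b.bd.q i2 + E n))) ≤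
          ε * E n := by
  have hE0 : Tendsto E atTop (𝓝 0) := hs.tendsto_atTop_zero
  have hm := bc (g := fun n => Mf s (dep (fun c => c + σ) (fun c => c) 1) 1 1 (E n)) (E := E) (K := σ) (C := 2)
    (u := u) (v := v) zero_le_two hE hs
    (fun a b h1 h2 h3 => by
      filter_upwards [hE0.eventually (ge_mem_nhds (show (0 : ℝ) < a by linarith))] with n hn
      exact Mf_mono (hA a b h1 h2 h3) (Or.inl rfl) zero_le_one (hE n).le hn)
    (fun a b h1 h2 h3 => by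
      filter_upwards [hE0.eventually (ge_mem_nhds (show (0 : ℝ) < a by linarith))] with n hn c hc
      have h4 := Mf_abs (hA a b h1 h2 h3) (j := 1) (Or.inl rfl) hc (N := 1) zero_le_one (hE n).le (hn.trans hc.1)
      have h5 : (1 : ℝ) * (dep (fun c => c + σ) (fun c => c) 1 c - c) = σ := by
        have h6 : dep (fun c => c + σ) (fun c => c) 1 c = c + σ := if_pos rfl
        rw [h6]
        ring
      rw [h5] at h4
      exact h4)
  filter_upwards [hm] with c hc hcu ε hε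
  have h1 := hc hcu ε hε
  obtain ⟨a, ha1, ha2⟩ := exists_between hcu.1
  obtain ⟨b, hb1, hb2⟩ := exists_between hcu.2
  have hAab := hA a b ha1 (ha2.le.trans hb1.le) hb2
  have h2 : ∀ᶠ n in atTop, 2 * E n < min (c - a) (b - c) := by
    have h3 : Tendsto (fun n => 2 * E n) atTop (𝓝 (2 * 0)) := hE0.const_mul 2
    rw [mul_zero] at h3
    exact h3.eventually (gt_mem_nhds (lt_min (by linarith) (by linarith)))
  filter_upwards [h1, h2, hE0.eventually (ge_mem_nhds (show (0 : ℝ) < a by linarith))] with n g1 g2 g3 q etav L bx i2 i3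
    k1 k2 k3 k4
  have g4 := g2.trans_le (min_le_left _ _)
  have g5 := g2.trans_le (min_le_right _ _)
  have hn := hE n
  have hc1 : c + σ ≤ 1 := hAab.lam1 c ⟨ha2.le, hb1.le⟩
  have q2 : q i2 ∈ Set.Icc a b := ⟨by linarith, by linarith⟩
  have q3 : q i3 ∈ Set.Icc a b := ⟨by linarith, by linarith⟩
  rw [loss_eq hAab bx hn.le g3 (by linarith) q2 q3 k2 k4]
  have mm := Mf_mono hAab (j := 1) (Or.inl rfl) (N := 1) zero_le_one hn.le g3
  have m1 := mm (a := c - 2 * E n) (b := q i2) ⟨by linarith, by linarith⟩ q2 k1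
  have m2 := mm (a := q i3) (b := c + 2 * E n) q3 ⟨by linarith, by linarith⟩ k3
  linarith

/-- the same for the data of a corner, windows `c`, `c + E / (w + 1)`, `c + E / (w + 1) + E` -/
theorem r1_nd {σ u v : ℝ} (hu : 0 ≤ u)
    (hA : ∀ a b, u < a → a ≤ b → b < v → Adm s (fun c => c + σ) (fun c => c) a b) {E : ℕ → ℝ} (hE : ∀ n, 0 < E n)
    (hs : Summable E) : ∀ᵐ c : ℝ, c ∈ Set.Ioo u v → ∀ ε : ℝ, 0 < ε → ∀ᶠ n in atTop,
      ∀ (q etav : ℕ → ℝ) (L : ℕ → Lab S) (b : Bx s q (fun i => q i + σ) etav L) (i0 i2 i3 k : ℕ) (w : ℝ),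
        0 ≤ w → q i0 = c → q i2 = c + E n / (w + 1) → q i3 = q i2 + E n → b.bd.Dn i0 (q i3) →
        ∀ N : NDB b.ld i0 i2 k, N.e = E n →
        H (chgL (b.bd.V i2) 1 one_pos N.X2) - H (chgL (b.bd.V i3) 1 one_pos N.X2) ≤ ε * E n := by
  filter_upwards [r1 hu hA hE hs] with c hc hcu ε hε
  filter_upwards [hc hcu ε hε] with n hn q etav L b i0 i2 i3 k w hw h0 h2 h3 hd N hN
  have hE' := hE n
  have h4 : 0 ≤ E n / (w + 1) := div_nonneg hE'.le (by linarith)
  have h5 : E n / (w + 1) ≤ E n := div_le_self hE'.le (by linarith)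
  have h6 := hn q etav L b i2 i3 (by linarith) (by linarith) (by linarith) (fun x x' g1 g2 g3 => by
    refine hd x x' ?_ g2 g3
    have g4 : q i0 ≤ q i2 := by linarith
    exact g4.trans g1)
  have h7 : N.X2 = TR.dg (b.ld.x 0) (E n) ⊔ TR.dg (b.ld.vr i2) (b.bd.lam i2 - b.bd.q i2 + E n) := by
    unfold NDB.X2
    rw [hN]
  rw [h7]
  exact h6

end

end Pool.Agent.Helper82.R1A
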