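import Pool.Agent.Helper97.T1.Pot

/-! Over maximal labels of one window, entropies of functions of the line and the label do not change under domination. -/

set_option autoImplicit false

namespace Pool.Agent.Helper82.R1A

open Finset Filter Topology Pool.Agent.Helper69.RK Pool.Agent.Helper31.EC Pool.Agent.Helper60.CS
open Pool.Agent.Helper82.TP Pool.Agent.Helper40.EL Pool.Agent.Helper98.FR Pool.Agent.Helper80.HCI
open Pool.Agent.Helper42.NS Pool.Agent.Helper91.GR Pool.Agent.Helper52.KP Pool.Agent.Helper97.T1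

noncomputable section

open Sp QS Pool.Agent.Helper80.MX

variable {S : Sp} {l l' : Lab S}

/-- the partition of the digits of a function pulled back to a dominating label -/
theorem dig_dom (l' l : Lab S) (u : TR l.sp) (ρ : ℝ) (k : ℕ) :
    (Setoid.ker ((TR.vec (fun _ : Fin 1 => Dom.tr l' l u)).cellv ρ k) : Setoid (l' k).T.Ω) =
      Setoid.comap (Dom.phi l' l k) (Setoid.ker ((TR.vec (fun _ : Fin 1 => u)).cellv ρ k)) := by
  have e1 : (l'.sp.F k).n = (l.sp.F k).n := (l' k).hn.trans (l k).hn.symm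
  have e4 : (TR.vec (fun _ : Fin 1 => Dom.tr l' l u)).cellv ρ k =
      fun ω => (TR.vec (fun _ : Fin 1 => u)).cellv ρ k (Dom.phi l' l k ω) := by
    funext ω i
    have e5 : l'.sp.dl ρ k = l.sp.dl ρ k := by
      unfold Sp.dl
      rw [e1]
    show ⌊(u.1 k (Dom.phi l' l k ω)) / l'.sp.dl ρ k⌋ = ⌊(u.1 k (Dom.phi l' l k ω)) / l.sp.dl ρ k⌋
    rw [e5]
  rw [e4]
  rfl

/-- conditional entropies decrease along a domination -/
theorem h_dom (hd : Dom l' l) (A : S.Inf) (B : l.sp.Inf) (B' : l'.sp.Inf)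
    (hB : ∀ k, (B'.1 k : Setoid (l' k).T.Ω) = Setoid.comap (Dom.phi l' l k) (B.1 k)) :
    h (up1 l' (cl A)) (chgL (S := l'.sp) l'.V 1 one_pos (cl B')) ≤
      h (up1 l (cl A)) (chgL (S := l.sp) l.V 1 one_pos (cl B)) := by
  have e1 : h (up1 l' (cl A)) (chgL (S := l'.sp) l'.V 1 one_pos (cl B')) =
      ul ((l'.sp.chg l'.V 1 one_pos).rt (chgI l'.V 1 one_pos (l'.pj.mapI A)).1 (chgI l'.V 1 one_pos B').1) := h_cl _ _
  have e2 : h (up1 l (cl A)) (chgL (S := l.sp) l.V 1 one_pos (cl B)) =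
      ul ((l.sp.chg l.V 1 one_pos).rt (chgI l.V 1 one_pos (l.pj.mapI A)).1 (chgI l.V 1 one_pos B).1) := h_cl _ _
  rw [e1, e2]
  apply ul_mono (UB_rt _ _) (UB_rt _ _)
  filter_upwards [hd] with k hk
  have f1 : (l'.sp.chg l'.V 1 one_pos).rt (chgI l'.V 1 one_pos (l'.pj.mapI A)).1 (chgI l'.V 1 one_pos B').1 k =
      (l' k).T.e (Setoid.comap (l' k).p.π (A.1 k)) (B'.1 k ⊓ (l'.V k ⊓ (l' k).T.Z)) / (1 * (l' k).T.n) := rfl
  have f2 : (l.sp.chg l.V 1 one_pos).rt (chgI l.V 1 one_pos (l.pj.mapI A)).1 (chgI l.V 1 one_pos B).1 k =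
      (l k).T.e (Setoid.comap (l k).p.π (A.1 k)) (B.1 k ⊓ (l.V k ⊓ (l k).T.Z)) / (1 * (l k).T.n) := rfl
  have hn : (l' k).T.n = (l k).T.n := (l' k).hn.trans (l k).hn.symm
  have hpos : 0 < (l k).T.n := (l.sp.F k).pos
  rw [f1, f2, hn]
  apply div_le_div_of_nonneg_right _ (by linarith)
  obtain ⟨r, h3, h4, h5⟩ := Dom.phi_eq l' l (show Dom.Pr l' l k from hk)
  rw [hB k]
  have g1 : (l' k).T.e (Setoid.comap (l' k).p.π (A.1 k)) (Setoid.comap (Dom.phi l' l k) (B.1 k) ⊓ (l'.V k ⊓ (l' k).T.Z)) ≤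
      (l' k).T.e (Setoid.comap (l' k).p.π (A.1 k)) (Setoid.comap (Dom.phi l' l k) (B.1 k ⊓ l.V k) ⊓ (l' k).T.Z) := by
    apply (l' k).T.e_anti
    intro ω ω' _ _ h
    refine ⟨⟨h.1, ?_⟩, h.2.2⟩
    rw [h3]
    exact h4 h.2.1
  have g2 : (l' k).T.e (Setoid.comap (l' k).p.π (A.1 k)) (Setoid.comap (Dom.phi l' l k) (B.1 k ⊓ l.V k) ⊓ (l' k).T.Z) ≤
      (l' k).T.e (Setoid.comap (Dom.phi l' l k) (Setoid.comap (l k).p.π (A.1 k)))
        (Setoid.comap (Dom.phi l' l k) (B.1 k ⊓ l.V k) ⊓ (l' k).T.Z) := by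
    apply (l' k).T.e_mono
    intro ω ω' a b h _
    show A.1 k ((l' k).p.π ω) ((l' k).p.π ω')
    rw [h5 ω a, h5 ω' b, ← h3]
    exact h
  have g3 := e_phi (l := l) (l' := l') hk (Setoid.comap (l k).p.π (A.1 k)) (B.1 k ⊓ l.V k)
  rw [inf_assoc] at g3
  exact (g1.trans g2).trans g3.le

/-- FUNCTIONS OF THE LINE AND THE LABEL: over a dominating maximal label the entropy is not smaller -/
theorem H_dom {m : ℕ} {s : Sys S m} {c : ℝ} (hd : Dom l' l) (hl : IsKap s c l) (hl' : IsKap s c l') (B : l.sp.Inf)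
    (B' : l'.sp.Inf) (hB : ∀ k, (B'.1 k : Setoid (l' k).T.Ω) = Setoid.comap (Dom.phi l' l k) (B.1 k))
    (hX : chgL (S := l.sp) l.V 1 one_pos (cl B) ≤ up1 l (s.xi 1)) :
    H (chgL (S := l.sp) l.V 1 one_pos (cl B)) ≤ H (chgL (S := l'.sp) l'.V 1 one_pos (cl B')) := by
  obtain ⟨A, hA⟩ : ∃ A : S.Inf, cl A = s.xi 1 := by
    exact Sp.cl_ind (p := fun x => ∃ A : S.Inf, cl A = x) (fun A => ⟨A, rfl⟩) _
  have h1 := h_dom hd A B B' hB
  rw [hA] at h1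
  have h2 : H (up1 l (s.xi 1)) = H (up1 l' (s.xi 1)) := hl.H_eq hl' _
  have h3 : H (up1 l (s.xi 1)) = H (chgL (S := l.sp) l.V 1 one_pos (cl B)) +
      h (up1 l (s.xi 1)) (chgL (S := l.sp) l.V 1 one_pos (cl B)) :=
    (congrArg H (sup_eq_right.mpr hX)).symm.trans
      (H_chain (L := (l.ovr 1 one_pos).L) (chgL (S := l.sp) l.V 1 one_pos (cl B)) (up1 l (s.xi 1)))
  have h4 : H (up1 l' (s.xi 1)) ≤ H (chgL (S := l'.sp) l'.V 1 one_pos (cl B')) +
      h (up1 l' (s.xi 1)) (chgL (S := l'.sp) l'.V 1 one_pos (cl B')) :=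
    (H_mono le_sup_right).trans
      (H_chain (L := (l'.ovr 1 one_pos).L) (chgL (S := l'.sp) l'.V 1 one_pos (cl B')) (up1 l' (s.xi 1))).le
  linarith

/-- the same for the digits of two functions -/
theorem H_tr_ge {m : ℕ} {s : Sys S m} {c : ℝ} (hd : Dom l' l) (hl : IsKap s c l) (hl' : IsKap s c l') (f g : TR l.sp)
    (r r' : ℝ) (hX : chgL (S := l.sp) l.V 1 one_pos (TR.dg f r ⊔ TR.dg g r') ≤ up1 l (s.xi 1)) :
    H (chgL (S := l.sp) l.V 1 one_pos (TR.dg f r ⊔ TR.dg g r')) ≤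
      H (chgL (S := l'.sp) l'.V 1 one_pos (TR.dg (Dom.tr l' l f) r ⊔ TR.dg (Dom.tr l' l g) r')) := by
  have e1 : TR.dg f r ⊔ TR.dg g r' = cl (Inf.sup ((TR.vec (fun _ : Fin 1 => f)).bdd r).toInf
      ((TR.vec (fun _ : Fin 1 => g)).bdd r').toInf) := by
    rw [cl_sup]
    have a1 : TR.dg f r = cl ((TR.vec (fun _ : Fin 1 => f)).bdd r).toInf := io_eq _
    have a2 : TR.dg g r' = cl ((TR.vec (fun _ : Fin 1 => g)).bdd r').toInf := io_eq _
    rw [a1, a2]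
  have e2 : TR.dg (Dom.tr l' l f) r ⊔ TR.dg (Dom.tr l' l g) r' =
      cl (Inf.sup ((TR.vec (fun _ : Fin 1 => Dom.tr l' l f)).bdd r).toInf
      ((TR.vec (fun _ : Fin 1 => Dom.tr l' l g)).bdd r').toInf) := by
    rw [cl_sup]
    have a1 : TR.dg (Dom.tr l' l f) r = cl ((TR.vec (fun _ : Fin 1 => Dom.tr l' l f)).bdd r).toInf := io_eq _
    have a2 : TR.dg (Dom.tr l' l g) r' = cl ((TR.vec (fun _ : Fin 1 => Dom.tr l' l g)).bdd r').toInf := io_eq _
    rw [a1, a2]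
  rw [e1] at hX ⊢
  rw [e2]
  refine H_dom hd hl hl' _ _ (fun k => ?_) hX
  have b1 := dig_dom l' l f r k
  have b2 := dig_dom l' l g r' k
  show (Setoid.ker ((TR.vec (fun _ : Fin 1 => Dom.tr l' l f)).cellv r k) ⊓
    Setoid.ker ((TR.vec (fun _ : Fin 1 => Dom.tr l' l g)).cellv r' k) : Setoid (l' k).T.Ω) = _
  rw [b1, b2]
  rfl

end

end Pool.Agent.Helper82.R1A
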