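import Pool.Agent.Helper82.R1A.Tre

/-! The value of the potential of the slabs: it is attained at the slab of any window of any box. -/

set_option autoImplicit false

namespace Pool.Agent.Helper82.R1A

open Finset Filter Topology Pool.Agent.Helper69.RK Pool.Agent.Helper31.EC Pool.Agent.Helper60.CS
open Pool.Agent.Helper82.TP Pool.Agent.Helper40.EL Pool.Agent.Helper98.FR Pool.Agent.Helper80.HCI
open Pool.Agent.Helper42.NS Pool.Agent.Helper91.GR Pool.Agent.Helper52.KP Pool.Agent.Helper97.T1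

noncomputable section

open Sp QS Pool.Agent.Helper80.MX

variable {S : Sp} {l l' : Lab S}

theorem x_dg_le (s : Sys S 3) (l : Lab S) (i : Fin 3) {r : ℝ} (hr : r ≤ 1) :
    chgL (S := l.sp) l.V 1 one_pos (TR.dg (TR.cor (s.pull l.pj).x i) r) ≤ up1 l (s.xi 1) := by
  have h1 : TR.dg (TR.cor (s.pull l.pj).x i) r ≤ l.pj.map (s.xi 1) := by
    refine (TR.cor_dg_le _ i r).trans ?_
    have h2 : (s.pull l.pj).x.dg r = l.pj.map (s.x.dg r) := (l.pj.map_dg s.x r).symm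
    rw [h2]
    exact l.pj.map_mono (s.x_le_xi hr)
  exact chgL_mono _ _ _ h1

/-- the velocity relative to a frame is a function of the line and the label -/
theorem vl_dg_le (s : Sys S 3) (j : Fin 3) (l : Lab S) {f : Fin 4 → TR l.sp} (hf : ∀ a, Lt (S := l.sp) l.V (f a))
    {r : ℝ} (hr : r ≤ 1) : chgL (S := l.sp) l.V 1 one_pos (TR.dg (vl s j l f) r) ≤ up1 l (s.xi 1) := by
  rw [← dg_mk _ hr, ← qc_dg]
  have b : ∀ a, dg (qc (S := l.sp) l.V (QS.mk (f a))) r = ⊥ := fun a => (hf a).qc_bot (S := l.sp) l.V r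
  have x : ∀ i, dg (qc (S := l.sp) l.V (QS.mk (TR.cor (s.pull l.pj).x i))) r ≤ up1 l (s.xi 1) := fun i => by
    rw [qc_dg, dg_mk _ hr]
    exact x_dg_le s l i hr
  have e1 : qc (S := l.sp) l.V (QS.mk (vl s j l f)) = qc (S := l.sp) l.V (QS.mk (TR.cor (s.pull l.pj).x j)) -
      (qc (S := l.sp) l.V (QS.mk (f 1)) + qc (S := l.sp) l.V (QS.mk (f 2)) * qc (S := l.sp) l.V (QS.mk (TR.cor (s.pull l.pj).x 0)) +
        qc (S := l.sp) l.V (QS.mk (f 3)) * qc (S := l.sp) l.V (QS.mk (TR.cor (s.pull l.pj).x 1))) := by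
    simp only [← map_mul, ← map_add, ← map_sub]
    rfl
  rw [e1]
  have m : ∀ a i, dg (qc (S := l.sp) l.V (QS.mk (f a)) * qc (S := l.sp) l.V (QS.mk (TR.cor (s.pull l.pj).x i))) r ≤
      up1 l (s.xi 1) := fun a i => (dg_mul_le _ _ hr).trans (sup_le ((b a).le.trans bot_le) (x i))
  refine (dg_sub_le _ _ hr).trans (sup_le (x j) ?_)
  refine (dg_add_le _ _ hr).trans (sup_le ?_ (m 3 1))
  exact (dg_add_le _ _ hr).trans (sup_le ((b 1).le.trans bot_le) (m 2 0))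

/-- entropies of the velocities over a dominating maximal label are not smaller -/
theorem Hv_tr_ge {s : Sys S 3} {c : ℝ} (j : Fin 3) {e r : ℝ} (he : e ≤ 1) (hr : r ≤ 1) {f : Fin 4 → TR l.sp}
    (hf : ∀ a, Lt (S := l.sp) l.V (f a)) (hd : Dom l' l) (hl : IsKap s c l) (hl' : IsKap s c l') :
    Hv s j e r l f ≤ Hv s j e r l' (fun a => Dom.tr l' l (f a)) := by
  have e1 : ∀ g : TR S, hd.qs (QS.mk (l.pj.tr g)) = QS.mk (l'.pj.tr g) := hd.qs_pj
  have e2 : QS.mk (Dom.tr l' l (TR.cor (s.pull l.pj).x 0)) = QS.mk (TR.cor (s.pull l'.pj).x 0) := e1 (TR.cor s.x 0)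
  have e3 : QS.mk (Dom.tr l' l (TR.cor (s.pull l.pj).x 1)) = QS.mk (TR.cor (s.pull l'.pj).x 1) := e1 (TR.cor s.x 1)
  have e4 : QS.mk (Dom.tr l' l (TR.cor (s.pull l.pj).x j)) = QS.mk (TR.cor (s.pull l'.pj).x j) := e1 (TR.cor s.x j)
  have e5 : QS.mk (Dom.tr l' l (vl s j l f)) = QS.mk (vl s j l' (fun a => Dom.tr l' l (f a))) := by
    unfold vl
    simp only [map_sub, map_add, map_mul]
    rw [e2, e3, e4]
  have k1 : TR.dg (TR.cor (s.pull l'.pj).x 0) e = TR.dg (Dom.tr l' l (TR.cor (s.pull l.pj).x 0)) e := by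
    rw [← dg_mk _ he, ← dg_mk _ he, e2]
  have k2 : TR.dg (vl s j l' (fun a => Dom.tr l' l (f a))) r = TR.dg (Dom.tr l' l (vl s j l f)) r := by
    rw [← dg_mk _ hr, ← dg_mk _ hr, e5]
  unfold Hv
  rw [k1, k2]
  refine H_tr_ge hd hl hl' _ _ e r ?_
  rw [chgL_sup]
  exact sup_le (x_dg_le s l 0 he) (vl_dg_le s j l hf hr)

section box

variable {s : Sys S 3} {q lamv etav : ℕ → ℝ} {L : ℕ → Lab S} (b : Bx s q lamv etav L)

/-- the frame of the slab of a window -/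
def slf (i : ℕ) : Fin 4 → TR b.M.sp := ![b.bd.r i 0, b.bd.r i 1, b.bd.r i 2, 0]

theorem slf_fr (i : ℕ) : Frz s 1 (lamv i) (b.M.lab i) (slf b i) := by
  refine ⟨?_, fun _ => rfl, ?_⟩
  · have l0 : Lt (b.bd.V i) (0 : TR b.M.sp) := Eventually.of_forall fun k ω ω' _ _ _ _ => rfl
    intro a
    fin_cases a
    · exact b.bd.lr i 0
    · exact b.bd.lr i 1
    · exact b.bd.lr i 2
    · exact l0
  · have m1 : QS.mk b.bd.R - (QS.mk (b.bd.r i 0) + QS.mk (b.bd.r i 1) * QS.mk b.bd.t +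
        QS.mk (b.bd.r i 2) * QS.mk b.bd.y + QS.mk (0 : TR b.M.sp) * QS.mk b.bd.R) ∈ Id b.M.sp (lamv i) := by
      rw [map_zero, zero_mul, add_zero]
      exact b.bd.hr i
    exact m1

theorem slf_Hv (i : ℕ) (e r : ℝ) : Hv s 1 e r (b.M.lab i) (slf b i) =
    H (dgo b.bd i (b.ld.x 0) e ⊔ dgo b.bd i (b.ld.vr i) r) := by
  refine (Hv_eq b 1 e r i (slf b i)).trans ?_
  have e1 : b.ld.x 1 - (b.bd.r i 1 + b.bd.r i 2 * b.ld.x 0 + 0 * b.ld.x 1) = b.ld.vr i := by
    rw [zero_mul, add_zero]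
    rfl
  have e3 : H (dgo b.bd i (b.ld.x 0) e ⊔ dgo b.bd i (b.ld.x 1 - (b.bd.r i 1 + b.bd.r i 2 * b.ld.x 0 + 0 * b.ld.x 1)) r) =
      H (dgo b.bd i (b.ld.x 0) e ⊔ dgo b.bd i (b.ld.vr i) r) := by
    rw [e1]
  exact e3

/-- frames of `R` over the label of a window: the entropy is that of the slab -/
theorem Hv_slf {i : ℕ} {ν e : ℝ} (he : e ≤ 1) (hνe : ν + e ≤ 1) {F : Fin 4 → TR b.M.sp}
    (hF : Frz s 1 (ν + q i) (b.M.lab i) F) (hν : ν + q i ≤ lamv i) :
    Hv s 1 e (ν + e) (b.M.lab i) F = Hv s 1 e (ν + e) (b.M.lab i) (slf b i) :=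
  (step1 b (i0 := i) (i := i) le_rfl (fun x x' h1 h2 h3 => absurd (h1.trans_lt h2) (not_lt.mpr h3)) he hνe hF hν).2.symm

variable {lam eta : ℝ → ℝ} {a a' : ℝ}

/-- THE VALUE OF THE POTENTIAL OF THE SLABS: attained at the slab of any window of any box -/
theorem Mf_eq (A : Adm s lam eta a a') {i : ℕ} (hq : q i ∈ Set.Icc a a') (hl : lamv i = lam (q i)) {e : ℝ}
    (he0 : 0 ≤ e) (hea : e ≤ a) (hσ : lamv i - q i + e ≤ 1) :
    Mf s (dep lam eta 1) 1 1 e (q i) = (lamv i - q i) -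
      H (dgo b.bd i (b.ld.x 0) e ⊔ dgo b.bd i (b.ld.vr i) (lamv i - q i + e)) := by
  have he1 : e ≤ 1 := hea.trans ((hq.1.trans hq.2).trans A.b1)
  have hdep : dep lam eta 1 (q i) = lamv i := (if_pos rfl).trans hl.symm
  rw [← slf_Hv]
  apply le_antisymm
  · apply csSup_le
    · refine ⟨_, lamv i - q i, b.M.lab i, slf b i, ?_, b.kap i, ?_, rfl⟩
      · rw [hdep]
      · rw [sub_add_cancel]
        exact slf_fr b i
    · rintro v ⟨ν, l, f, h1, h2, h3, rfl⟩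
      rw [hdep] at h1
      obtain ⟨q2, L2, B, q0, -, hd, -⟩ := A.box2 hq hq (join_DM h2.dm (b.kap i).dm)
      have d1 : Dom (B.M.lab 0) l := hd.trans (Dom.left l (b.M.lab i))
      have d2 : Dom (B.M.lab 0) (b.M.lab i) := hd.trans (Dom.right l (b.M.lab i))
      have hνe : ν + e ≤ 1 := by linarith
      have g1 := Hv_tr_le s 1 he1 hνe f d1
      have g2 := h3.tr d1
      have hl0 : lam (q2 0) = lamv i := by rw [q0, hl]
      rw [← q0] at g2
      have g3 := Hv_slf B he1 hνe g2 (by rw [hl0, q0]; linarith)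
      have g4 : Frz s 1 (lamv i - q i + q2 0) (B.M.lab 0) (fun a => Dom.tr (B.M.lab 0) (b.M.lab i) (slf b i a)) := by
        rw [q0, sub_add_cancel]
        exact (slf_fr b i).tr d2
      have g5 := Hv_slf B he1 hσ g4 (by rw [hl0, q0]; linarith)
      have k0 := B.kap 0
      rw [q0] at k0
      have g6 := Hv_tr_ge 1 he1 hσ (slf_fr b i).lt d2 (b.kap i) k0
      rw [slf_Hv] at g3 g5
      have g7 := H_dgo_step B.bd (i := 0) (f := B.ld.vr 0) (X := dgo B.bd 0 (B.ld.x 0) e) (r := ν + e)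
        (r' := lamv i - q i + e) (by linarith) hσ
      linarith
  · have h1 := le_Mf (s := s) (dp := dep lam eta 1) (j := 1) (N := 1) zero_le_one (e := e) (c := q i)
      (ν := lamv i - q i) (l := b.M.lab i) (f := slf b i) (by rw [hdep]) (b.kap i) (by
        rw [sub_add_cancel]
        exact slf_fr b i)
    linarith

end box

end

end Pool.Agent.Helper82.R1A
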